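import Pool.Agent.Helper46.DC.Parts
import Pool.Agent.Helper60.DC.Forest
import Pool.Agent.Helper31.DC.Join
import Pool.Agent.Helper96.DC.Crit

set_option autoImplicit false

/-!
The criterion for disjoint cycles through the vertices of `X` (MP_6bc104_co).
-/

namespace Pool.Agent.DC

open Finset

theorem exists_parts {U ι P : Type} [Fintype U] [DecidableEq U] [Fintype ι] [DecidableEq ι]
    [Fintype P] [DecidableEq P] [Nonempty U] [Nonempty ι]
    (hcard : Fintype.card P = Fintype.card ι)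
    (adj : U → U ⊕ ι → Prop) (hexp : ∀ J : Finset ι, J.Nonempty → Expand adj J)
    (N : P → Finset (U ⊕ ι))
    (hS : ∀ D : Finset U,
      (univ.filter fun p => (N p \ D.map ⟨Sum.inl, Sum.inl_injective⟩).card ≤
        Fintype.card ι).card ≤ D.card) :
    ∃ V : P → Set (U ⊕ ι), (∀ p q, p ≠ q → Disjoint (V p) (V q)) ∧
      (∀ p, ∃ r ∈ V p, ∀ x ∈ V p, Relation.ReflTransGen
        (fun x y => x ∈ V p ∧ y ∈ V p ∧ ∃ u, x = Sum.inl u ∧ adj u y) x r) ∧
      ∀ p, ∃ a b, a ≠ b ∧ a ∈ N p ∧ b ∈ N p ∧ a ∈ V p ∧ b ∈ V p :=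
  exists_parts_aux (fun K hK adj J h τ hτ => relAc_forest K hK adj J h τ hτ)
    (fun K hK adj J τ => closed_XX K hK adj J τ)
    (fun K hK Γ A h => relAc_join K hK Γ A h) hcard adj hexp N hS

theorem criterion {V : Type} [Fintype V] [DecidableEq V] (G : SimpleGraph V) [DecidableRel G.Adj]
    (X R : Finset V) (hXR : Disjoint X R) (hRX : R.card = X.card) (hX : X.Nonempty)
    (hbig : ∃ v, v ∉ X ∧ v ∉ R)
    (hconn : ∀ Z : Finset V, Disjoint Z X → Z.card < X.card →
      (G.induce {v | v ∉ X ∧ v ∉ Z}).Connected)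
    (hS : ∀ D : Finset V, Disjoint D X → Disjoint D R →
      (X.filter fun x => ((univ.filter fun y => G.Adj x y ∧ y ∉ X) \ D).card ≤ X.card).card ≤
        D.card) : DisjCycles G X :=
  criterion_of_parts (fun _ _ _ _ _ _ _ _ _ _ _ h adj he N hS => exists_parts h adj he N hS)
    G X R hXR hRX hX hbig hconn hS

end Pool.Agent.DC
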