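import Mathlib

set_option autoImplicit false

/-!
Common definitions for the project disjoint cycles through specified vertices (MP_6bc104_co).

* `Cx`: a complex with coefficients in `ZMod 2`; chains are functions `α → ZMod 2`.
* `RelAc K d S S'`: the pair `(S, S')` is acyclic in all degrees `< d`.
* `forestCx`: the complex of rooted forests on `U ⊕ ι` (roots `ι`): a cell is a finset `A` of pairs
  `(u, x)`, `x` is an allowed parent of `u`.  The empty finset is the augmentation cell.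
* `sCx`: the full (augmented) simplicial complex on a finite set.
* `JJ Γ`: the join complex of partial functions `p ↦ j` with `Γ p j`.
-/

namespace Pool.Agent.DC

open Finset

/-- A complex over `ZMod 2` whose chains are functions `α → ZMod 2`. -/
structure Cx (α : Type) where
  deg : α → ℕ
  D : (α → ZMod 2) → (α → ZMod 2)
  D_add : ∀ c c', D (c + c') = D c + D c'
  D_D : ∀ c, D (D c) = 0
  D_hom : ∀ (n : ℕ) (c : α → ZMod 2), (∀ a, c a ≠ 0 → deg a = n + 1) →
    ∀ a, D c a ≠ 0 → deg a = n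
  D_zero : ∀ c : α → ZMod 2, (∀ a, c a ≠ 0 → deg a = 0) → D c = 0

/-- `c` is a chain of degree `n` supported in `S`. -/
def Ch {α : Type} (K : Cx α) (S : Set α) (n : ℕ) (c : α → ZMod 2) : Prop :=
  ∀ a, c a ≠ 0 → a ∈ S ∧ K.deg a = n

/-- `S` is a subcomplex. -/
def Closed {α : Type} (K : Cx α) (S : Set α) : Prop :=
  ∀ c : α → ZMod 2, (∀ a, c a ≠ 0 → a ∈ S) → ∀ a, K.D c a ≠ 0 → a ∈ S

/-- The pair `(S, S')` is acyclic in the degrees `< d`. -/
def RelAc {α : Type} (K : Cx α) (d : ℕ) (S S' : Set α) : Prop :=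
  ∀ n < d, ∀ c, Ch K S n c → (∀ a, K.D c a ≠ 0 → a ∈ S') →
    ∃ w a', Ch K S (n + 1) w ∧ Ch K S' n a' ∧ c = K.D w + a'

/-- Every vertex of `U` has an allowed parent. -/
def Tot {U ι : Type} (A : Finset (U × (U ⊕ ι))) : Prop := ∀ u, ∃ x, (u, x) ∈ A

/-- The cofacets of a cell of the forest complex. -/
noncomputable def cof {U ι : Type} [Fintype U] [DecidableEq U] [Fintype ι] [DecidableEq ι]
    (A : Finset (U × (U ⊕ ι))) : Finset (Finset (U × (U ⊕ ι))) := by
  classical
  exact if Tot A then Aᶜ.image (fun e => insert e A)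
    else if A = ∅ then univ.filter (fun B => Tot B ∧ B.card = Fintype.card U)
    else ∅

/-- The degree (dimension + 1) of a cell of the forest complex. -/
def fdeg {U ι : Type} [Fintype U] (A : Finset (U × (U ⊕ ι))) : ℕ :=
  if A.card = 0 then 0 else A.card + 1 - Fintype.card U

/-- A cell of the forest complex: all parents adjacent; only the roots in `J` are used; a vertex with
two or more allowed parents is nobody's parent; acyclic. -/
structure IsCell {U ι : Type} (adj : U → U ⊕ ι → Prop) (J : Finset ι)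
    (A : Finset (U × (U ⊕ ι))) : Prop where
  tot : Tot A
  adj : ∀ u x, (u, x) ∈ A → adj u x
  root : ∀ u j, (u, Sum.inr j) ∈ A → j ∈ J
  leaf : ∀ u x x', (u, x) ∈ A → (u, x') ∈ A → x ≠ x' → ∀ w, (w, Sum.inl u) ∉ A
  acyc : ∃ ρ : U → ℕ, ∀ u w, (u, Sum.inl w) ∈ A → ρ w < ρ u

/-- A partial forest `τ` (closed under parents, functional). -/
structure Good {U ι : Type} (adj : U → U ⊕ ι → Prop) (J : Finset ι)
    (τ : Finset (U × (U ⊕ ι))) : Prop where
  adj : ∀ u x, (u, x) ∈ τ → adj u x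
  root : ∀ u j, (u, Sum.inr j) ∈ τ → j ∈ J
  func : ∀ u x y, (u, x) ∈ τ → (u, y) ∈ τ → x = y
  closed : ∀ u w, (u, Sum.inl w) ∈ τ → ∃ x, (w, x) ∈ τ
  acyc : ∃ ρ : U → ℕ, ∀ u w, (u, Sum.inl w) ∈ τ → ρ w < ρ u

/-- The cells extending the partial forest `τ` (together with the augmentation cell `∅`). -/
def XX {U ι : Type} (adj : U → U ⊕ ι → Prop) (J : Finset ι) (τ : Finset (U × (U ⊕ ι))) :
    Set (Finset (U × (U ⊕ ι))) :=
  {A | A = ∅ ∨ (IsCell adj J A ∧ τ ⊆ A ∧ ∀ u x y, (u, x) ∈ τ → (u, y) ∈ A → y = x)}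

/-- All total subsets of `O`, together with `∅`. -/
def prodSet {U ι : Type} (O : Finset (U × (U ⊕ ι))) : Set (Finset (U × (U ⊕ ι))) :=
  {A | A = ∅ ∨ (Tot A ∧ A ⊆ O)}

/-- The expansion property for the root set `J`: for every `S`, either at least `|J|` vertices
outside `S` are adjacent to `S ∪ J`, or all are. -/
def Expand {U ι : Type} [Fintype U] [DecidableEq U] (adj : U → U ⊕ ι → Prop) (J : Finset ι) :
    Prop :=
  ∀ S : Finset U, (∃ Y : Finset U, J.card ≤ Y.card ∧
      ∀ y ∈ Y, y ∉ S ∧ ∃ x ∈ S.disjSum J, adj y x) ∨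
    ∀ y ∉ S, ∃ x ∈ S.disjSum J, adj y x

/-- Partial functions from players to labels, allowed by `Γ`, as finsets of pairs. -/
def JJ {P ι : Type} (Γ : P → ι → Prop) : Set (Finset (P × ι)) :=
  {S | (∀ p j j', (p, j) ∈ S → (p, j') ∈ S → j = j') ∧ ∀ p j, (p, j) ∈ S → Γ p j}

/-- `x` lies in the core of the piece with root `j` of the cell `A`. -/
inductive Rch {U ι : Type} (A : Finset (U × (U ⊕ ι))) (j : ι) : U ⊕ ι → Prop
  | root : Rch A j (Sum.inr j)
  | step (u : U) (x : U ⊕ ι) : (u, x) ∈ A → (∀ y, (u, y) ∈ A → y = x) → Rch A j x →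
      Rch A j (Sum.inl u)

/-- Player `p` (with set `N p`) accepts piece `j` of `A`: two elements in the core. -/
def Acc {U ι P : Type} (N : P → Finset (U ⊕ ι)) (A : Finset (U × (U ⊕ ι))) (p : P) (j : ι) :
    Prop :=
  ∃ a b, a ≠ b ∧ a ∈ N p ∧ b ∈ N p ∧ Rch A j a ∧ Rch A j b

end Pool.Agent.DC

namespace Pool.Agent.DC

open Finset

/-- `K` is the (augmented) complex of rooted forests. -/
def IsForest {U ι : Type} [Fintype U] [DecidableEq U] [Fintype ι] [DecidableEq ι]
    (K : Cx (Finset (U × (U ⊕ ι)))) : Prop :=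
  (∀ c A, K.D c A = ∑ B ∈ cof A, c B) ∧ ∀ A, K.deg A = fdeg A

/-- `K` is the full (augmented) simplicial complex on `β`. -/
def IsSimp {β : Type} [Fintype β] [DecidableEq β] (K : Cx (Finset β)) : Prop :=
  (∀ c S, K.D c S = ∑ e ∈ Sᶜ, c (insert e S)) ∧ ∀ S, K.deg S = S.card

/-- `c`-connected, as in the problem: more than `c` vertices, and deleting fewer than `c` vertices
leaves a connected graph. -/
def KConn {V : Type} [Fintype V] (G : SimpleGraph V) (c : ℕ) : Prop :=
  c < Fintype.card V ∧ ∀ S : Finset V, S.card < c → (G.induce {v | v ∉ S}).Connected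

/-- Pairwise disjoint cycles through the vertices of `X`, each meeting `X` in exactly one vertex. -/
def DisjCycles {V : Type} (G : SimpleGraph V) (X : Finset V) : Prop :=
  ∃ C : (x : V) → G.Walk x x, (∀ x ∈ X, (C x).IsCycle) ∧
    (∀ x ∈ X, ∀ v ∈ (C x).support, v ∈ X → v = x) ∧
    ∀ x ∈ X, ∀ y ∈ X, x ≠ y → ∀ v, v ∈ (C x).support → v ∉ (C y).support

end Pool.Agent.DC
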