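import Pool.Agent.Helper46.DC.Sperner3
import Pool.Agent.Helper51.DC.Chains
import Pool.Agent.Helper68.DC.Cores
import Pool.Agent.Helper78.DC.Complexes

set_option autoImplicit false

/-!
DC-10: assembly of the theorem on connected parts.
-/

namespace Pool.Agent.DC

open Finset

theorem exists_parts_aux {U ι P : Type} [Fintype U] [DecidableEq U] [Fintype ι] [DecidableEq ι]
    [Fintype P] [DecidableEq P] [Nonempty U] [Nonempty ι]
    (hforest : ∀ (K : Cx (Finset (U × (U ⊕ ι)))), IsForest K → ∀ (adj : U → U ⊕ ι → Prop)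
      (J : Finset ι), Expand adj J → ∀ (τ : Finset (U × (U ⊕ ι))), Good adj J τ →
      RelAc K J.card (XX adj J τ) ∅)
    (hclosed : ∀ (K : Cx (Finset (U × (U ⊕ ι)))), IsForest K → ∀ (adj : U → U ⊕ ι → Prop)
      (J : Finset ι) (τ : Finset (U × (U ⊕ ι))), Closed K (XX adj J τ))
    (hjoin : ∀ (K : Cx (Finset (P × ι))), IsSimp K → ∀ (Γ : P → ι → Prop) (A : Finset P),
      (∀ p ∈ A, ∃ j, Γ p j) → RelAc K A.card (JJ Γ) ∅)
    (hcard : Fintype.card P = Fintype.card ι)
    (adj : U → U ⊕ ι → Prop) (hexp : ∀ J : Finset ι, J.Nonempty → Expand adj J)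
    (N : P → Finset (U ⊕ ι))
    (hS : ∀ D : Finset U,
      (univ.filter fun p => (N p \ D.map ⟨Sum.inl, Sum.inl_injective⟩).card ≤
        Fintype.card ι).card ≤ D.card) :
    ∃ V : P → Set (U ⊕ ι), (∀ p q, p ≠ q → Disjoint (V p) (V q)) ∧
      (∀ p, ∃ r ∈ V p, ∀ x ∈ V p, Relation.ReflTransGen
        (fun x y => x ∈ V p ∧ y ∈ V p ∧ ∃ u, x = Sum.inl u ∧ adj u y) x r) ∧
      ∀ p, ∃ a b, a ≠ b ∧ a ∈ N p ∧ b ∈ N p ∧ a ∈ V p ∧ b ∈ V p := by
  classical
  obtain ⟨K, hK⟩ := exists_forestCx U ι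
  obtain ⟨K', hK'⟩ := exists_simpCx (P × ι)
  have hbot : K.deg ∅ = 0 := by rw [hK.2]; simp [fdeg]
  have hmono : ∀ J J' : Finset ι, J ⊆ J' → XX adj J ∅ ⊆ XX adj J' ∅ := by
    intro J J' hJ A hA
    rcases hA with h | ⟨h1, h2, h3⟩
    · exact Or.inl h
    · exact Or.inr ⟨⟨h1.tot, h1.adj, fun u j hj => hJ (h1.root u j hj), h1.leaf, h1.acyc⟩, h2, h3⟩
  obtain ⟨c, hc, hc0, hcD⟩ := exists_chains K ∅ (fun J => XX adj J ∅) hmono hbot (Or.inl rfl)
    (fun J hJ => hforest K hK adj J (hexp J hJ) ∅ ⟨by simp, by simp, by simp, by simp,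
      ⟨fun _ => 0, by simp⟩⟩)
  have hnT : ¬ Tot (∅ : Finset (U × (U ⊕ ι))) := by
    intro h
    obtain ⟨x, hx⟩ := h (Classical.arbitrary U)
    simp at hx
  have hXcl : ∀ (J : Finset ι) (a : Finset (U × (U ⊕ ι))), ∀ b ∈ cof a, b ∈ XX adj J ∅ →
      a ∈ XX adj J ∅ := by
    intro J a b hb hbX
    refine hclosed K hK adj J ∅ (Pi.single b 1) ?_ a ?_
    · intro x hx
      by_cases h : x = b
      · rw [h]; exact hbX
      · exact absurd (by simp [Pi.single_apply, h]) hx
    · rw [hK.1, sum_eq_single_of_mem b hb]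
      · simp
      · intro x _ hx
        simp [Pi.single_apply, hx]
  have hcell : ∀ (J : Finset ι) (a : Finset (U × (U ⊕ ι))), a ∈ XX adj J ∅ → a ≠ ∅ →
      IsCell adj J a := by
    intro J a ha hne
    rcases ha with h | h
    · exact absurd h hne
    · exact h.1
  have hTcard : ∀ a : Finset (U × (U ⊕ ι)), Tot a → Fintype.card U ≤ a.card := by
    intro a ha
    choose f hf using ha
    have : (univ.image fun u => (u, f u)) ⊆ a := by
      intro x hx
      obtain ⟨u, _, rfl⟩ := mem_image.mp hx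
      exact hf u
    refine le_trans (le_of_eq ?_) (card_le_card this)
    rw [card_image_of_injective _ (fun u v h => (Prod.mk.inj h).1), card_univ]
  have hUpos : 0 < Fintype.card U := Fintype.card_pos
  have hsubcof : ∀ a b : Finset (U × (U ⊕ ι)), a ≠ ∅ → b ∈ cof a → Tot a ∧ a ⊆ b := by
    intro a b ha hb
    unfold cof at hb
    split_ifs at hb with h1 h2
    · obtain ⟨e, _, rfl⟩ := mem_image.mp hb
      exact ⟨h1, subset_insert _ _⟩
    · exact absurd hb (notMem_empty _)
  obtain ⟨F, hF, hFX, π, hπ⟩ := sperner_hall_aux hcard K' hK' (fun Γ A hA => hjoin K' hK' Γ A hA) K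
    cof hK.1 (fun a b hb => by rw [hK.2, hK.2]; exact DC3.fdeg_cof hb) ∅ hbot
    (fun J => XX adj J ∅) hXcl hmono
    (fun a ha hne => by
      have := hTcard a (hcell _ a ha hne).tot
      rw [hK.2]
      unfold fdeg
      rw [if_neg (by omega)]
      omega) c hc hc0 hcD (fun a p j => Acc N a p j)
    (fun a ha b hb hbX p j h => by
      obtain ⟨hTa, hab⟩ := hsubcof a b ha hb
      obtain ⟨x, y, h1, h2, h3, h4, h5⟩ := h
      exact ⟨x, y, h1, h2, h3, rch_mono hTa hab h4, rch_mono hTa hab h5⟩)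
    (fun J a ha hne p j h => by
      obtain ⟨x, y, h1, h2, h3, h4, h5⟩ := h
      have hA := hcell J a ha hne
      rcases x with u | i
      · exact rch_mem hA h4
      · rcases y with v | i'
        · exact rch_mem hA h5
        · exfalso
          cases h4
          cases h5
          exact h1 rfl)
    (fun a ha hne _ => by
      rw [hK.2]
      exact alive_count hcard adj N hS a (hcell _ a ha hne))
  have hFT : Tot F ∧ F.card = Fintype.card U := by
    unfold cof at hF
    rw [if_neg hnT, if_pos rfl] at hF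
    exact (mem_filter.mp hF).2
  have hFne : F ≠ ∅ := fun h => hnT (h ▸ hFT.1)
  have hFc := hcell univ F hFX hFne
  refine ⟨fun p => {x | Rch F (π p) x}, ?_, ?_, ?_⟩
  · intro p q hpq
    rw [Set.disjoint_left]
    intro x hx hy
    exact hpq (π.injective (rch_unique hFT.1 hx hy))
  · intro p
    refine ⟨Sum.inr (π p), Rch.root, ?_⟩
    intro x hx
    induction hx with
    | root => exact Relation.ReflTransGen.refl
    | step u y h1 h2 h3 ih =>
      refine Relation.ReflTransGen.head ⟨Rch.step u y h1 h2 h3, h3, u, rfl, hFc.adj u y h1⟩ ih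
  · intro p
    obtain ⟨x, y, h1, h2, h3, h4, h5⟩ := hπ p
    exact ⟨x, y, h1, h2, h3, h4, h5⟩

end Pool.Agent.DC
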