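import Pool.Agent.Helper46.DC.Defs

set_option autoImplicit false

/-!
DC-8: Sperner + Hall by mod 2 filling in join complexes.
-/

namespace Pool.Agent.DC

open Finset

section basic

theorem zmod2_add_self (x : ZMod 2) : x + x = 0 := CharTwo.add_self_eq_zero x

theorem fun_add_self {α : Type} (c : α → ZMod 2) : c + c = 0 := by
  funext a
  exact zmod2_add_self (c a)

theorem Cx.D_fzero {α : Type} (K : Cx α) : K.D 0 = 0 := K.D_zero 0 (fun _ h => absurd rfl h)

theorem Cx.D_sum {α β : Type} (K : Cx α) (s : Finset β) (f : β → α → ZMod 2) :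
    K.D (∑ i ∈ s, f i) = ∑ i ∈ s, K.D (f i) := by
  classical
  induction s using Finset.induction_on with
  | empty => simpa using K.D_fzero
  | insert a s ha ih => rw [sum_insert ha, sum_insert ha, K.D_add, ih]

theorem sum_pairs_zero {α ι : Type} [DecidableEq ι] (J : Finset ι) (g : ι → ι → α → ZMod 2)
    (hg : ∀ i j, g i j = g j i) : ∑ j ∈ J, ∑ l ∈ J.erase j, g j l = 0 := by
  have h1 : ∑ j ∈ J, ∑ l ∈ J.erase j, g j l = ∑ p ∈ J.offDiag, g p.1 p.2 := by
    rw [Finset.sum_sigma']
    refine sum_bij' (fun p _ => (p.1, p.2)) (fun p _ => ⟨p.1, p.2⟩) ?_ ?_ ?_ ?_ ?_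
    · rintro ⟨a, b⟩ h
      simp only [mem_sigma, mem_erase] at h
      simp only [mem_offDiag]
      exact ⟨h.1, h.2.2, fun e => h.2.1 e.symm⟩
    · rintro ⟨a, b⟩ h
      simp only [mem_offDiag] at h
      simp only [mem_sigma, mem_erase]
      exact ⟨h.1, fun e => h.2.2 e.symm, h.2.1⟩
    · rintro ⟨a, b⟩ _; rfl
    · rintro ⟨a, b⟩ _; rfl
    · rintro ⟨a, b⟩ _; rfl
  rw [h1]
  refine sum_involution (fun p _ => (p.2, p.1)) ?_ ?_ ?_ ?_
  · rintro ⟨a, b⟩ _
    show g a b + g b a = 0
    rw [hg b a]
    exact fun_add_self _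
  · rintro ⟨a, b⟩ h _ e
    simp only [mem_offDiag] at h
    exact h.2.2 (by simpa using (congrArg Prod.snd e))
  · rintro ⟨a, b⟩ h
    simp only [mem_offDiag] at h ⊢
    exact ⟨h.2.1, h.1, fun e => h.2.2 e.symm⟩
  · rintro ⟨a, b⟩ _; rfl

end basic

section labels

variable {P ι : Type} [Fintype P] [DecidableEq P] [Fintype ι] [DecidableEq ι]

/-- `S` has pairwise distinct labels, with label set `J`. -/
def GoodL (S : Finset (P × ι)) (J : Finset ι) : Prop := S.image Prod.snd = J ∧ S.card = J.card

instance (S : Finset (P × ι)) (J : Finset ι) : Decidable (GoodL S J) := by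
  unfold GoodL; infer_instance

/-- Number (mod 2) of simplices of `Φ` with label set exactly `J`. -/
def lab (Φ : Finset (P × ι) → ZMod 2) (J : Finset ι) : ZMod 2 :=
  ∑ S, if GoodL S J then Φ S else 0

theorem lab_sum {β : Type} (s : Finset β) (f : β → Finset (P × ι) → ZMod 2) (J : Finset ι) :
    lab (∑ i ∈ s, f i) J = ∑ i ∈ s, lab (f i) J := by
  unfold lab
  rw [sum_comm]
  refine sum_congr rfl fun S _ => ?_
  split_ifs
  · rw [Finset.sum_apply]
  · simp

theorem lab_eq_zero (Φ : Finset (P × ι) → ZMod 2) (J : Finset ι) (h : ∀ S, GoodL S J → Φ S = 0) :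
    lab Φ J = 0 := by
  unfold lab
  refine sum_eq_zero fun S _ => ?_
  split_ifs with hS
  · exact h S hS
  · rfl

/-- The key count. -/
theorem label_count (T : Finset (P × ι)) (J : Finset ι) (hT : T.card = J.card + 1) :
    ∑ e ∈ T, (if GoodL (T.erase e) J then (1 : ZMod 2) else 0) =
      ∑ a ∈ Jᶜ, if GoodL T (insert a J) then (1 : ZMod 2) else 0 := by
  by_cases hinj : Set.InjOn Prod.snd (T : Set (P × ι))
  · -- labels distinct
    have hLcard : (T.image Prod.snd).card = T.card := card_image_of_injOn hinj
    have herase : ∀ e ∈ T, (T.erase e).image Prod.snd = (T.image Prod.snd).erase e.2 := by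
      intro e he
      ext l
      simp only [mem_image, mem_erase]
      constructor
      · rintro ⟨f, ⟨hfe, hf⟩, rfl⟩
        exact ⟨fun h => hfe (hinj hf he h), f, hf, rfl⟩
      · rintro ⟨hl, f, hf, rfl⟩
        exact ⟨f, ⟨fun h => hl (by rw [h]), hf⟩, rfl⟩
    by_cases hJ : J ⊆ T.image Prod.snd
    · obtain ⟨a, ha, haJ⟩ : ∃ a ∈ T.image Prod.snd, a ∉ J := by
        by_contra hcon
        push Not at hcon
        have := card_le_card (show T.image Prod.snd ⊆ J from hcon)
        omega
      have hLa : T.image Prod.snd = insert a J := by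
        refine (eq_of_subset_of_card_le ?_ ?_).symm
        · intro x hx
          rcases mem_insert.mp hx with rfl | hx
          · exact ha
          · exact hJ hx
        · rw [card_insert_of_notMem haJ]; omega
      obtain ⟨e, he, hea⟩ := mem_image.mp ha
      rw [sum_eq_single_of_mem e he, sum_eq_single_of_mem a (by simpa using haJ)]
      · have g1 : GoodL (T.erase e) J := by
          refine ⟨?_, ?_⟩
          · rw [herase e he, hLa, hea, erase_insert haJ]
          · rw [card_erase_of_mem he]; omega
        have g2 : GoodL T (insert a J) := ⟨hLa, by rw [card_insert_of_notMem haJ]; exact hT⟩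
        rw [if_pos g1, if_pos g2]
      · intro b _ hba
        rw [if_neg]
        rintro ⟨h1, _⟩
        have : a ∈ insert b J := by rw [← h1]; exact ha
        rcases mem_insert.mp this with h | h
        · exact hba h.symm
        · exact haJ h
      · intro f hf hfe
        rw [if_neg]
        rintro ⟨h1, _⟩
        rw [herase f hf] at h1
        have : a ∈ (T.image Prod.snd).erase f.2 := by
          refine mem_erase.mpr ⟨?_, ha⟩
          intro h
          exact hfe (hinj hf he (by rw [← h, hea]))
        rw [h1] at this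
        exact haJ this
    · rw [sum_eq_zero, sum_eq_zero]
      · intro a _
        rw [if_neg]
        rintro ⟨h1, _⟩
        exact hJ (by rw [h1]; exact subset_insert _ _)
      · intro e he
        rw [if_neg]
        rintro ⟨h1, _⟩
        rw [herase e he] at h1
        exact hJ (by rw [← h1]; exact erase_subset _ _)
  · -- a repeated label
    have : ∃ e ∈ T, ∃ f ∈ T, e ≠ f ∧ e.2 = f.2 := by
      by_contra hcon
      push Not at hcon
      exact hinj fun e he f hf h => by
        by_contra hne
        exact hcon e he f hf hne h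
    obtain ⟨e, he, f, hf, hne, hef⟩ := this
    have hLlt : (T.image Prod.snd).card < T.card := by
      refine lt_of_le_of_ne card_image_le fun h => hinj ?_
      exact card_image_iff.mp h
    have hR : ∑ a ∈ Jᶜ, (if GoodL T (insert a J) then (1 : ZMod 2) else 0) = 0 := by
      refine sum_eq_zero fun a _ => if_neg ?_
      rintro ⟨h1, h2⟩
      rw [h1] at hLlt
      omega
    rw [hR]
    have himg : ∀ e ∈ T, ∀ f ∈ T, e ≠ f → e.2 = f.2 →
        (T.erase e).image Prod.snd = T.image Prod.snd := by
      intro e he f hf hne hef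
      refine Subset.antisymm (image_subset_image (erase_subset _ _)) ?_
      intro l hl
      obtain ⟨g, hg, rfl⟩ := mem_image.mp hl
      by_cases hge : g = e
      · subst hge
        exact mem_image.mpr ⟨f, mem_erase.mpr ⟨hne.symm, hf⟩, hef.symm⟩
      · exact mem_image.mpr ⟨g, mem_erase.mpr ⟨hge, hg⟩, rfl⟩
    have hsub : ({e, f} : Finset (P × ι)) ⊆ T := by
      intro x hx
      rcases mem_insert.mp hx with rfl | hx
      · exact he
      · rw [mem_singleton.mp hx]; exact hf
    rw [← sum_subset hsub, sum_pair hne]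
    · have h1 : GoodL (T.erase e) J ↔ GoodL (T.erase f) J := by
        unfold GoodL
        rw [himg e he f hf hne hef, himg f hf e he hne.symm hef.symm, card_erase_of_mem he,
          card_erase_of_mem hf]
      by_cases hg : GoodL (T.erase e) J
      · rw [if_pos hg, if_pos (h1.mp hg)]
        exact zmod2_add_self 1
      · rw [if_neg hg, if_neg (fun h => hg (h1.mpr h)), add_zero]
    · intro g hg hgn
      rw [if_neg]
      rintro ⟨h1, h2⟩
      have hge : g ≠ e := fun h => hgn (by rw [h]; exact mem_insert_self _ _)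
      have hgf : g ≠ f := fun h => hgn (by rw [h]; exact mem_insert_of_mem (mem_singleton_self _))
      have hinj' : Set.InjOn Prod.snd ((T.erase g : Finset (P × ι)) : Set (P × ι)) := by
        refine card_image_iff.mp ?_
        rw [h1, h2]
      exact hne (hinj' (by simp [he, hge.symm]) (by simp [hf, hgf.symm]) hef)

theorem lab_D (K : Cx (Finset (P × ι))) (hK : IsSimp K) (Φ : Finset (P × ι) → ZMod 2)
    (J : Finset ι) (hΦ : ∀ S, Φ S ≠ 0 → S.card = J.card + 1) :
    lab (K.D Φ) J = ∑ a ∈ Jᶜ, lab Φ (insert a J) := by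
  have h1 : lab (K.D Φ) J = ∑ T, Φ T * ∑ e ∈ T, (if GoodL (T.erase e) J then (1 : ZMod 2) else 0) := by
    unfold lab
    have e1 : ∀ S : Finset (P × ι), (if GoodL S J then K.D Φ S else 0) =
        ∑ e : P × ι, if e ∉ S ∧ GoodL S J then Φ (insert e S) else 0 := by
      intro S
      split_ifs with h
      · rw [hK.1]
        rw [← sum_filter]
        refine sum_congr ?_ fun _ _ => rfl
        ext e
        simp [h]
      · refine (sum_eq_zero fun e _ => if_neg fun h' => h h'.2).symm
    rw [sum_congr rfl fun S _ => e1 S, sum_comm]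
    have e2 : ∀ T : Finset (P × ι), Φ T * ∑ e ∈ T, (if GoodL (T.erase e) J then (1 : ZMod 2) else 0)
        = ∑ e : P × ι, if e ∈ T ∧ GoodL (T.erase e) J then Φ T else 0 := by
      intro T
      rw [mul_sum, ← sum_filter_add_sum_filter_not univ (fun e => e ∈ T)]
      rw [sum_eq_zero (s := univ.filter fun e => ¬ e ∈ T), add_zero]
      · refine sum_congr ?_ fun e he => ?_
        · ext e; simp
        · have he := (mem_filter.mp he).2
          by_cases hg : GoodL (T.erase e) J
          · rw [if_pos hg, if_pos ⟨he, hg⟩, mul_one]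
          · rw [if_neg hg, if_neg fun h => hg h.2, mul_zero]
      · intro e he
        rw [if_neg fun h => (mem_filter.mp he).2 h.1]
    rw [sum_congr rfl fun T _ => e2 T, sum_comm (s := univ) (t := univ)
      (f := fun T e => if e ∈ T ∧ GoodL (T.erase e) J then Φ T else 0)]
    refine sum_congr rfl fun e _ => ?_
    rw [← sum_filter, ← sum_filter]
    refine sum_bij' (fun S _ => insert e S) (fun T _ => T.erase e) ?_ ?_ ?_ ?_ ?_
    · intro S hS
      obtain ⟨h1, h2⟩ := (mem_filter.mp hS).2
      refine mem_filter.mpr ⟨mem_univ _, mem_insert_self _ _, ?_⟩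
      rwa [erase_insert h1]
    · intro T hT
      obtain ⟨h1, h2⟩ := (mem_filter.mp hT).2
      exact mem_filter.mpr ⟨mem_univ _, notMem_erase _ _, h2⟩
    · intro S hS
      exact erase_insert (mem_filter.mp hS).2.1
    · intro T hT
      exact insert_erase (mem_filter.mp hT).2.1
    · intro S hS
      rfl
  have h2 : ∑ a ∈ Jᶜ, lab Φ (insert a J) =
      ∑ T, Φ T * ∑ a ∈ Jᶜ, (if GoodL T (insert a J) then (1 : ZMod 2) else 0) := by
    unfold lab
    rw [sum_comm]
    refine sum_congr rfl fun T _ => ?_
    rw [mul_sum]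
    refine sum_congr rfl fun a _ => ?_
    split_ifs <;> simp
  rw [h1, h2]
  refine sum_congr rfl fun T _ => ?_
  by_cases hT : Φ T = 0
  · rw [hT, zero_mul, zero_mul]
  · rw [label_count T J (hΦ T hT)]

end labels

end Pool.Agent.DC
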