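import Pool.Agent.Helper46.DC.Sperner

set_option autoImplicit false

/-!
DC-8 (continued): the filling construction.
-/

namespace Pool.Agent.DC

open Finset

/-- the augmentation simplex -/
def e0 {P ι : Type} [DecidableEq P] [DecidableEq ι] : Finset (P × ι) → ZMod 2 :=
  fun S => if S = ∅ then 1 else 0

section fill

variable {α P ι : Type} [Fintype P] [DecidableEq P] [Fintype ι] [DecidableEq ι]

/-- the right-hand side of the recursion -/
def rhs (cf : α → Finset α) (c : Finset ι → α → ZMod 2)
    (Ψ : Finset ι → α → Finset (P × ι) → ZMod 2) (J : Finset ι) (a : α) :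
    Finset (P × ι) → ZMod 2 :=
  (c J a) • e0 + ∑ b ∈ cf a, Ψ J b + ∑ j ∈ J, Ψ (J.erase j) a

theorem D_smul_e0 (K' : Cx (Finset (P × ι))) (hK' : IsSimp K') (x : ZMod 2) :
    K'.D (x • e0) = 0 := by
  refine K'.D_zero _ fun S hS => ?_
  rw [hK'.2]
  by_contra h
  apply hS
  have : S ≠ ∅ := fun e => h (by rw [e]; rfl)
  simp [e0, this]

/-- The boundary of the theta part. -/
theorem D_theta (K : Cx α) (K' : Cx (Finset (P × ι))) (hK' : IsSimp K') (cf : α → Finset α)
    (hcf : ∀ c a, K.D c a = ∑ b ∈ cf a, c b)
    (c : Finset ι → α → ZMod 2) (Ψ : Finset ι → α → Finset (P × ι) → ZMod 2)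
    (J : Finset ι) (a : α)
    (hb : ∀ b ∈ cf a, K'.D (Ψ J b) = rhs cf c Ψ J b)
    (hcD : K.D (c J) = ∑ j ∈ J, c (J.erase j)) :
    K'.D ((c J a) • e0 + ∑ b ∈ cf a, Ψ J b) =
      ∑ j ∈ J, ((c (J.erase j) a) • e0 + ∑ b ∈ cf a, Ψ (J.erase j) b) := by
  rw [K'.D_add, D_smul_e0 K' hK', zero_add, K'.D_sum, sum_congr rfl hb]
  unfold rhs
  rw [sum_add_distrib, sum_add_distrib]
  have h0 : ∑ b ∈ cf a, ∑ b' ∈ cf b, Ψ J b' = 0 := by
    funext S
    have := congrFun (K.D_D (fun x => Ψ J x S)) a
    rw [hcf] at this
    rw [Finset.sum_apply, Pi.zero_apply]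
    refine (sum_congr rfl fun b _ => ?_).trans this
    rw [hcf, Finset.sum_apply]
  rw [h0, add_zero, sum_add_distrib]
  congr 1
  · rw [← sum_smul, ← sum_smul]
    congr 1
    rw [← hcf, hcD, Finset.sum_apply]
  · rw [sum_comm]

/-- The invariant. -/
structure Inv (K : Cx α) (K' : Cx (Finset (P × ι))) (cf : α → Finset α) (bot : α)
    (X : Finset ι → Set α) (c : Finset ι → α → ZMod 2) (Γ : α → P → ι → Prop) (r : ℕ)
    (Ψ : Finset ι → α → Finset (P × ι) → ZMod 2) : Prop where
  zero : ∀ J a, a ≠ bot → J.card + 1 ≤ K.deg a + r → (a ∉ X J ∨ J.card < K.deg a) → Ψ J a = 0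
  ch : ∀ J a, a ≠ bot → J.card + 1 ≤ K.deg a + r → a ∈ X J → K.deg a ≤ J.card →
    Ch K' (JJ (Γ a)) (J.card + 1 - K.deg a) (Ψ J a)
  bd : ∀ J a, a ≠ bot → J.card + 1 ≤ K.deg a + r → K'.D (Ψ J a) = rhs cf c Ψ J a

theorem exists_psi (K : Cx α) (K' : Cx (Finset (P × ι))) (hK' : IsSimp K')
    (hjoin : ∀ (Γ : P → ι → Prop) (A : Finset P), (∀ p ∈ A, ∃ j, Γ p j) →
      RelAc K' A.card (JJ Γ) ∅)
    (cf : α → Finset α) (hcf : ∀ c a, K.D c a = ∑ b ∈ cf a, c b)
    (hdeg : ∀ a, ∀ b ∈ cf a, K.deg b = K.deg a + 1) (bot : α) (hbot : K.deg bot = 0)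
    (X : Finset ι → Set α) (hXcl : ∀ J, ∀ a, ∀ b ∈ cf a, b ∈ X J → a ∈ X J)
    (hXmono : ∀ J J', J ⊆ J' → X J ⊆ X J') (hXdeg : ∀ a ∈ X univ, a ≠ bot → 1 ≤ K.deg a)
    (c : Finset ι → α → ZMod 2) (hc : ∀ J, Ch K (X J) J.card (c J))
    (hcD : ∀ J : Finset ι, J.Nonempty → K.D (c J) = ∑ j ∈ J, c (J.erase j))
    (Γ : α → P → ι → Prop)
    (hΓ : ∀ a, a ≠ bot → ∀ b ∈ cf a, b ∈ X univ → ∀ p j, Γ b p j → Γ a p j)
    (halive : ∀ a ∈ X univ, a ≠ bot → K.deg a ≤ Fintype.card ι →
      ∃ B : Finset P, (∀ p ∈ B, ∃ j, Γ a p j) ∧ Fintype.card ι + 1 ≤ K.deg a + B.card) (r : ℕ) :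
    ∃ Ψ, Inv K K' cf bot X c Γ r Ψ := by
  classical
  have hbb : ∀ a, ∀ b ∈ cf a, b ≠ bot := fun a b hb h => by
    have := hdeg a b hb
    rw [h, hbot] at this
    omega
  induction r with
  | zero =>
    refine ⟨fun _ _ => 0, fun _ _ _ _ _ => rfl, fun _ _ _ _ _ _ => ?_, fun J a ha hJ => ?_⟩
    · intro S hS
      exact absurd rfl hS
    · have h0 : c J a = 0 := by
        by_contra h
        have := (hc J a h).2
        omega
      rw [K'.D_fzero]
      simp [rhs, h0]
  | succ r ih =>
    obtain ⟨Ψ, hz, hch, hbd⟩ := ih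
    -- the filling for measure exactly r + 1
    have hfill : ∀ J a, a ≠ bot → J.card + 1 = K.deg a + (r + 1) → a ∈ X J → K.deg a ≤ J.card →
        ∃ w, Ch K' (JJ (Γ a)) (J.card + 1 - K.deg a) w ∧ K'.D w = rhs cf c Ψ J a := by
      intro J a ha hJ haX hle
      have hau : a ∈ X univ := hXmono J univ (subset_univ J) haX
      have hd1 := hXdeg a hau ha
      have hJne : J.Nonempty := by
        rw [← card_pos]; omega
      obtain ⟨B, hB, hBc⟩ := halive a hau ha (hle.trans (card_le_univ J))
      have hJι := card_le_univ J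
      -- degree and support of the rhs
      have hz1 : Ch K' (JJ (Γ a)) (J.card - K.deg a) (rhs cf c Ψ J a) := by
        intro S hS
        rw [hK'.2]
        have hS' : (c J a) • e0 S ≠ 0 ∨ (∑ b ∈ cf a, Ψ J b) S ≠ 0 ∨
            (∑ j ∈ J, Ψ (J.erase j) a) S ≠ 0 := by
          by_contra hcon
          push Not at hcon
          apply hS
          show (c J a) • e0 S + (∑ b ∈ cf a, Ψ J b) S + (∑ j ∈ J, Ψ (J.erase j) a) S = 0
          rw [hcon.1, hcon.2.1, hcon.2.2, add_zero, add_zero]
        rcases hS' with h | h | h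
        · have hca : c J a ≠ 0 := fun e => h (by rw [e, zero_smul])
          have hSe : S = ∅ := by
            by_contra hne
            apply h
            simp [e0, hne]
          have := (hc J a hca).2
          subst hSe
          refine ⟨⟨by simp, by simp⟩, ?_⟩
          simp only [card_empty]
          omega
        · rw [Finset.sum_apply] at h
          obtain ⟨b, hb, hbS⟩ := exists_ne_zero_of_sum_ne_zero h
          have hdb := hdeg a b hb
          have hbX : b ∈ X J := by
            by_contra hcon
            exact hbS (congrFun (hz J b (hbb a b hb) (by omega) (Or.inl hcon)) S)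
          have hbJ : K.deg b ≤ J.card := by
            by_contra hcon
            exact hbS (congrFun (hz J b (hbb a b hb) (by omega) (Or.inr (by omega))) S)
          have := hch J b (hbb a b hb) (by omega) hbX hbJ S hbS
          rw [hK'.2] at this
          refine ⟨⟨this.1.1, fun p j hpj => ?_⟩, by omega⟩
          exact hΓ a ha b hb (hXmono J univ (subset_univ J) hbX) p j (this.1.2 p j hpj)
        · rw [Finset.sum_apply] at h
          obtain ⟨j, hj, hjS⟩ := exists_ne_zero_of_sum_ne_zero h
          have hcj : (J.erase j).card = J.card - 1 := card_erase_of_mem hj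
          have hbX : a ∈ X (J.erase j) := by
            by_contra hcon
            exact hjS (congrFun (hz (J.erase j) a ha (by omega) (Or.inl hcon)) S)
          have hbJ : K.deg a ≤ (J.erase j).card := by
            by_contra hcon
            exact hjS (congrFun (hz (J.erase j) a ha (by omega) (Or.inr (by omega))) S)
          have := hch (J.erase j) a ha (by omega) hbX hbJ S hjS
          rw [hK'.2] at this
          exact ⟨this.1, by omega⟩
      -- it is a cycle
      have hz2 : K'.D (rhs cf c Ψ J a) = 0 := by
        unfold rhs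
        rw [K'.D_add, D_theta K K' hK' cf hcf c Ψ J a
          (fun b hb => hbd J b (hbb a b hb) (by have := hdeg a b hb; omega)) (hcD J hJne),
          K'.D_sum]
        have h1 : ∑ j ∈ J, K'.D (Ψ (J.erase j) a) = ∑ j ∈ J, rhs cf c Ψ (J.erase j) a := by
          refine sum_congr rfl fun j hj => hbd (J.erase j) a ha ?_
          have hcj : (J.erase j).card = J.card - 1 := card_erase_of_mem hj
          omega
        rw [h1]
        have h3 : ∑ j ∈ J, rhs cf c Ψ (J.erase j) a =
            ∑ j ∈ J, ((c (J.erase j) a) • e0 + ∑ b ∈ cf a, Ψ (J.erase j) b) +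
              ∑ j ∈ J, ∑ l ∈ J.erase j, Ψ ((J.erase j).erase l) a := by
          unfold rhs
          rw [sum_add_distrib]
        rw [h3]
        have h2 : ∑ j ∈ J, ∑ l ∈ J.erase j, Ψ ((J.erase j).erase l) a = 0 :=
          sum_pairs_zero J (fun j l => Ψ ((J.erase j).erase l) a)
            (fun i j => by simp only [erase_right_comm])
        rw [h2, add_zero]
        exact fun_add_self _
      obtain ⟨w, a', hw, ha', he⟩ := hjoin (Γ a) B hB (J.card - K.deg a) (by omega) _ hz1
        (fun S hS => absurd (by rw [hz2]; rfl) hS)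
      have ha0 : a' = 0 := by
        funext S
        by_contra h
        exact (ha' S h).1
      refine ⟨w, ?_, ?_⟩
      · have : J.card + 1 - K.deg a = J.card - K.deg a + 1 := by omega
        rw [this]
        exact hw
      · rw [he, ha0, add_zero]
    choose! W hW1 hW2 using hfill
    let Ψ' : Finset ι → α → Finset (P × ι) → ZMod 2 := fun J a =>
      if J.card + 1 = K.deg a + (r + 1) then
        (if a ∈ X J ∧ a ≠ bot ∧ K.deg a ≤ J.card then W J a else 0) else Ψ J a
    have hold : ∀ J a, J.card + 1 ≤ K.deg a + r → Ψ' J a = Ψ J a := by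
      intro J a h
      show (if _ then _ else _) = _
      rw [if_neg (by omega)]
    have hrhs : ∀ J a, J.card + 1 ≤ K.deg a + (r + 1) →
        rhs cf c Ψ' J a = rhs cf c Ψ J a := by
      intro J a h
      unfold rhs
      congr 1
      · congr 1
        refine sum_congr rfl fun b hb => hold J b ?_
        have := hdeg a b hb
        omega
      · refine sum_congr rfl fun j hj => hold (J.erase j) a ?_
        have hcj : (J.erase j).card = J.card - 1 := card_erase_of_mem hj
        have : 0 < J.card := card_pos.mpr ⟨j, hj⟩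
        omega
    refine ⟨Ψ', ?_, ?_, ?_⟩
    · intro J a ha hJ hor
      by_cases hE : J.card + 1 = K.deg a + (r + 1)
      · show (if _ then _ else _) = _
        rw [if_pos hE, if_neg]
        rintro ⟨h1, _, h3⟩
        rcases hor with h | h
        · exact h h1
        · omega
      · rw [hold J a (by omega)]
        exact hz J a ha (by omega) hor
    · intro J a ha hJ haX hle
      by_cases hE : J.card + 1 = K.deg a + (r + 1)
      · have : Ψ' J a = W J a := by
          show (if _ then _ else _) = _
          rw [if_pos hE, if_pos ⟨haX, ha, hle⟩]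
        rw [this]
        exact hW1 J a ha hE haX hle
      · rw [hold J a (by omega)]
        exact hch J a ha (by omega) haX hle
    · intro J a ha hJ
      rw [hrhs J a hJ]
      by_cases hE : J.card + 1 = K.deg a + (r + 1)
      · by_cases hX : a ∈ X J ∧ a ≠ bot ∧ K.deg a ≤ J.card
        · have : Ψ' J a = W J a := by
            show (if _ then _ else _) = _
            rw [if_pos hE, if_pos hX]
          rw [this]
          exact hW2 J a ha hE hX.1 hX.2.2
        · have h0 : Ψ' J a = 0 := by
            show (if _ then _ else _) = _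
            rw [if_pos hE, if_neg hX]
          rw [h0, K'.D_fzero]
          -- all terms of the rhs vanish
          have hor : a ∉ X J ∨ J.card < K.deg a := by
            by_contra hcon
            push Not at hcon
            exact hX ⟨hcon.1, ha, hcon.2⟩
          have hca : c J a = 0 := by
            by_contra h
            have := hc J a h
            rcases hor with h' | h'
            · exact h' this.1
            · omega
          have hb0 : ∀ b ∈ cf a, Ψ J b = 0 := by
            intro b hb
            have hdb := hdeg a b hb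
            refine hz J b (hbb a b hb) (by omega) ?_
            rcases hor with h' | h'
            · exact Or.inl fun h => h' (hXcl J a b hb h)
            · exact Or.inr (by omega)
          have hj0 : ∀ j ∈ J, Ψ (J.erase j) a = 0 := by
            intro j hj
            have hcj : (J.erase j).card = J.card - 1 := card_erase_of_mem hj
            have : 0 < J.card := card_pos.mpr ⟨j, hj⟩
            refine hz (J.erase j) a ha (by omega) ?_
            rcases hor with h' | h'
            · exact Or.inl fun h => h' (hXmono _ _ (erase_subset _ _) h)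
            · exact Or.inr (by omega)
          unfold rhs
          rw [hca, sum_eq_zero hb0, sum_eq_zero hj0, zero_smul, add_zero, add_zero]
      · rw [hold J a (by omega)]
        exact hbd J a ha (by omega)

end fill

end Pool.Agent.DC
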