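import Pool.Agent.Helper46.DC.Sperner2

set_option autoImplicit false

/-!
DC-8 (end): the degree argument and the perfect matching.
-/

namespace Pool.Agent.DC

open Finset

/-- version with the two auxiliary facts (simplicial complex, joins) as hypotheses -/
theorem sperner_hall_aux {α P ι : Type} [Fintype P] [DecidableEq P] [Fintype ι] [DecidableEq ι]
    [Nonempty ι] (hcard : Fintype.card P = Fintype.card ι)
    (K' : Cx (Finset (P × ι))) (hK' : IsSimp K')
    (hjoin : ∀ (Γ : P → ι → Prop) (A : Finset P), (∀ p ∈ A, ∃ j, Γ p j) →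
      RelAc K' A.card (JJ Γ) ∅)
    (K : Cx α) (cf : α → Finset α) (hcf : ∀ c a, K.D c a = ∑ b ∈ cf a, c b)
    (hdeg : ∀ a, ∀ b ∈ cf a, K.deg b = K.deg a + 1) (bot : α) (hbot : K.deg bot = 0)
    (X : Finset ι → Set α) (hXcl : ∀ J, ∀ a, ∀ b ∈ cf a, b ∈ X J → a ∈ X J)
    (hXmono : ∀ J J', J ⊆ J' → X J ⊆ X J') (hXdeg : ∀ a ∈ X univ, a ≠ bot → 1 ≤ K.deg a)
    (c : Finset ι → α → ZMod 2) (hc : ∀ J, Ch K (X J) J.card (c J)) (hc0 : c ∅ bot = 1)
    (hcD : ∀ J : Finset ι, J.Nonempty → K.D (c J) = ∑ j ∈ J, c (J.erase j))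
    (Γ : α → P → ι → Prop)
    (hΓ : ∀ a, a ≠ bot → ∀ b ∈ cf a, b ∈ X univ → ∀ p j, Γ b p j → Γ a p j)
    (hΓJ : ∀ J, ∀ a ∈ X J, a ≠ bot → ∀ p j, Γ a p j → j ∈ J)
    (halive : ∀ a ∈ X univ, a ≠ bot → K.deg a ≤ Fintype.card ι →
      ∃ B : Finset P, (∀ p ∈ B, ∃ j, Γ a p j) ∧ Fintype.card ι + 1 ≤ K.deg a + B.card) :
    ∃ F ∈ cf bot, F ∈ X univ ∧ ∃ π : P ≃ ι, ∀ p, Γ F p (π p) := by
  classical
  obtain ⟨Ψ, hz, hch, hbd⟩ := exists_psi K K' hK' hjoin cf hcf hdeg bot hbot X hXcl hXmono hXdeg c hc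
    hcD Γ hΓ halive (Fintype.card ι + 1)
  have hbb : ∀ a, ∀ b ∈ cf a, b ≠ bot := fun a b hb h => by
    have := hdeg a b hb
    rw [h, hbot] at this
    omega
  have hJι : ∀ J : Finset ι, J.card ≤ Fintype.card ι := fun J => card_le_univ J
  let Φ : Finset ι → Finset (P × ι) → ZMod 2 := fun J => (c J bot) • e0 + ∑ b ∈ cf bot, Ψ J b
  -- support of Φ
  have hsupp : ∀ J S, Φ J S ≠ 0 → S.card = J.card ∧ (∀ x ∈ S, x.2 ∈ J) ∧
      (S = ∅ ∨ ∃ b ∈ cf bot, b ∈ X J ∧ S ∈ JJ (Γ b)) := by
    intro J S hS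
    have hS' : (c J bot) • e0 S ≠ 0 ∨ (∑ b ∈ cf bot, Ψ J b) S ≠ 0 := by
      by_contra hcon
      push Not at hcon
      apply hS
      show (c J bot) • e0 S + (∑ b ∈ cf bot, Ψ J b) S = 0
      rw [hcon.1, hcon.2, add_zero]
    rcases hS' with h | h
    · have hca : c J bot ≠ 0 := fun e => h (by rw [e, zero_smul])
      have hSe : S = ∅ := by
        by_contra hne
        apply h
        simp [e0, hne]
      have := (hc J bot hca).2
      rw [hbot] at this
      subst hSe
      exact ⟨by simpa using this, by simp, Or.inl rfl⟩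
    · rw [Finset.sum_apply] at h
      obtain ⟨b, hb, hbS⟩ := exists_ne_zero_of_sum_ne_zero h
      have hdb := hdeg bot b hb
      rw [hbot] at hdb
      have hJc := hJι J
      have hbX : b ∈ X J := by
        by_contra hcon
        exact hbS (congrFun (hz J b (hbb bot b hb) (by omega) (Or.inl hcon)) S)
      have hbJ : K.deg b ≤ J.card := by
        by_contra hcon
        exact hbS (congrFun (hz J b (hbb bot b hb) (by omega) (Or.inr (by omega))) S)
      have := hch J b (hbb bot b hb) (by omega) hbX hbJ S hbS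
      rw [hK'.2] at this
      refine ⟨by omega, fun x hx => ?_, Or.inr ⟨b, hb, hbX, this.1⟩⟩
      exact hΓJ J b hbX (hbb bot b hb) x.1 x.2 (this.1.2 x.1 x.2 hx)
  -- boundary of Φ
  have hDΦ : ∀ J : Finset ι, J.Nonempty → K'.D (Φ J) = ∑ j ∈ J, Φ (J.erase j) := by
    intro J hJ
    refine D_theta K K' hK' cf hcf c Ψ J bot (fun b hb => hbd J b (hbb bot b hb) ?_) (hcD J hJ)
    have := hJι J
    omega
  -- the count
  have hlab : ∀ J : Finset ι, lab (Φ J) J = 1 := by
    intro J
    induction J using Finset.strongInduction with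
    | H J ih =>
      rcases J.eq_empty_or_nonempty with rfl | hJ
      · have hΨ : ∑ b ∈ cf bot, Ψ ∅ b = 0 := by
          refine sum_eq_zero fun b hb => hz ∅ b (hbb bot b hb) (by rw [card_empty]; omega) (Or.inr ?_)
          rw [hdeg bot b hb]
          simp
        have hΦ : Φ ∅ = e0 := by
          show (c ∅ bot) • e0 + ∑ b ∈ cf bot, Ψ ∅ b = e0
          rw [hΨ, hc0, one_smul, add_zero]
        rw [hΦ]
        unfold lab
        rw [sum_eq_single (∅ : Finset (P × ι))]
        · rw [if_pos ⟨by simp, by simp⟩]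
          simp [e0]
        · intro S _ hS
          split_ifs
          · simp [e0, hS]
          · rfl
        · intro h
          exact absurd (mem_univ _) h
      · obtain ⟨j, hj⟩ := hJ
        have hcj : (J.erase j).card = J.card - 1 := card_erase_of_mem hj
        have hpos : 0 < J.card := card_pos.mpr ⟨j, hj⟩
        have e1 : lab (K'.D (Φ J)) (J.erase j) = ∑ a ∈ (J.erase j)ᶜ, lab (Φ J) (insert a (J.erase j)) :=
          lab_D K' hK' (Φ J) (J.erase j) (fun S hS => by have := (hsupp J S hS).1; omega)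
        have e2 : ∑ a ∈ (J.erase j)ᶜ, lab (Φ J) (insert a (J.erase j)) = lab (Φ J) J := by
          rw [sum_eq_single_of_mem j (by simp), insert_erase hj]
          intro a ha haj
          refine lab_eq_zero _ _ fun S hS => ?_
          by_contra hne
          have hmem : a ∈ S.image Prod.snd := by rw [hS.1]; exact mem_insert_self _ _
          obtain ⟨x, hx, hxa⟩ := mem_image.mp hmem
          have := (hsupp J S hne).2.1 x hx
          rw [hxa] at this
          rw [mem_compl, mem_erase] at ha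
          exact ha ⟨haj, this⟩
        have e3 : lab (K'.D (Φ J)) (J.erase j) = 1 := by
          rw [hDΦ J ⟨j, hj⟩, lab_sum, sum_eq_single_of_mem j hj]
          · exact ih _ (erase_ssubset hj)
          · intro l hl hlj
            refine lab_eq_zero _ _ fun S hS => ?_
            by_contra hne
            have hmem : l ∈ S.image Prod.snd := by
              rw [hS.1]; exact mem_erase.mpr ⟨hlj, hl⟩
            obtain ⟨x, hx, hxl⟩ := mem_image.mp hmem
            have := (hsupp (J.erase l) S hne).2.1 x hx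
            rw [hxl] at this
            exact notMem_erase l J this
        rw [← e2, ← e1, e3]
  -- the matching
  have h1 := hlab univ
  have hne : lab (Φ univ) univ ≠ 0 := by rw [h1]; exact one_ne_zero
  unfold lab at hne
  obtain ⟨S, _, hS⟩ := exists_ne_zero_of_sum_ne_zero hne
  have hG : GoodL S univ := by
    by_contra h
    exact hS (if_neg h)
  rw [if_pos hG] at hS
  obtain ⟨hSc, _, hor⟩ := hsupp univ S hS
  have hιpos : 0 < Fintype.card ι := Fintype.card_pos
  rcases hor with h | ⟨F, hF, hFX, hSF⟩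
  · rw [h, card_empty, card_univ] at hSc
    omega
  refine ⟨F, hF, hFX, ?_⟩
  have hfst : Set.InjOn Prod.fst (S : Set (P × ι)) := by
    rintro ⟨p, j⟩ hx ⟨p', j'⟩ hy h
    simp only at h
    subst h
    rw [hSF.1 p j j' hx hy]
  have hsnd : Set.InjOn Prod.snd (S : Set (P × ι)) := by
    refine card_image_iff.mp ?_
    rw [hG.1, hG.2]
  have himg : S.image Prod.fst = univ := by
    refine eq_univ_of_card _ ?_
    rw [card_image_of_injOn hfst, hSc, card_univ, hcard]
  have hex : ∀ p : P, ∃ j, (p, j) ∈ S := by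
    intro p
    have : p ∈ S.image Prod.fst := by rw [himg]; exact mem_univ _
    obtain ⟨⟨p', j⟩, hx, rfl⟩ := mem_image.mp this
    exact ⟨j, hx⟩
  choose f hf using hex
  have hinj : Function.Injective f := by
    intro p p' h
    have := hsnd (hf p) (hf p') h
    exact (Prod.mk.inj this).1
  have hbij : Function.Bijective f :=
    (Fintype.bijective_iff_injective_and_card f).mpr ⟨hinj, hcard⟩
  exact ⟨Equiv.ofBijective f hbij, fun p => hSF.2 p (f p) (hf p)⟩

end Pool.Agent.DC
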