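import Pool.Agent.Helper46.DC.Defs

set_option autoImplicit false

/-!
The spread case: few vertices outside `X` have many neighbours among the poor vertices of `X`.
-/

namespace Pool.Agent.DC

open Finset

/-- The neighbours of `x` outside `X`. -/
def outN {V : Type} [Fintype V] [DecidableEq V] (G : SimpleGraph V) [DecidableRel G.Adj]
    (X : Finset V) (x : V) : Finset V := univ.filter fun y => G.Adj x y ∧ y ∉ X

theorem kconn_degree {V : Type} [Fintype V] [DecidableEq V] (G : SimpleGraph V)
    [DecidableRel G.Adj] {c : ℕ} (hG : KConn G c) (x : V) :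
    c ≤ (univ.filter fun y => G.Adj x y).card := by
  by_contra hcon
  push Not at hcon
  set S := univ.filter fun y => G.Adj x y with hS
  have hc := hG.2 S hcon
  have hxS : x ∉ S := by simp [hS]
  have hcard : (insert x S).card < Fintype.card V := by
    have := card_insert_le x S
    have := hG.1
    omega
  obtain ⟨y, hy⟩ : ∃ y, y ∉ insert x S := by
    by_contra h
    push Not at h
    have : (insert x S) = univ := by ext v; simp [h v]
    rw [this, card_univ] at hcard
    omega
  rw [mem_insert, not_or] at hy
  obtain ⟨w⟩ := hc.preconnected ⟨x, hxS⟩ ⟨y, hy.2⟩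
  cases w with
  | nil => exact hy.1 rfl
  | cons h p =>
    rename_i v
    have hadj : G.Adj x v.1 := h
    have hvS : v.1 ∈ S := mem_filter.mpr ⟨mem_univ _, hadj⟩
    exact v.2 hvS

theorem outN_card {V : Type} [Fintype V] [DecidableEq V] (G : SimpleGraph V)
    [DecidableRel G.Adj] {c : ℕ} (hG : KConn G c) (X : Finset V) (x : V) (hx : x ∈ X) :
    c + 1 ≤ (outN G X x).card + X.card := by
  have h := kconn_degree G hG x
  have hsub : (univ.filter fun y => G.Adj x y) ⊆ outN G X x ∪ X.erase x := by
    intro y hy
    have hy := (mem_filter.mp hy).2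
    by_cases hyX : y ∈ X
    · exact mem_union_right _ (mem_erase.mpr ⟨hy.ne', hyX⟩)
    · exact mem_union_left _ (mem_filter.mpr ⟨mem_univ _, hy, hyX⟩)
  have h2 := card_le_card hsub
  have h3 := card_union_le (outN G X x) (X.erase x)
  have h4 : (X.erase x).card = X.card - 1 := card_erase_of_mem hx
  have h5 : 0 < X.card := card_pos.mpr ⟨x, hx⟩
  omega

/-- Counting: if every vertex outside `X ∪ R` has at most `s + 1` neighbours among the vertices of
`X` with fewer than `2k` outside neighbours, the Hall type condition of the criterion holds. -/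
theorem spread_hall {V : Type} [Fintype V] [DecidableEq V] (G : SimpleGraph V)
    [DecidableRel G.Adj] (k s : ℕ) (X R : Finset V) (hXk : X.card = k)
    (hN : ∀ x ∈ X, k + s + 1 ≤ (outN G X x).card)
    (hsp : ∀ v, v ∉ X → v ∉ R →
      (X.filter fun x => G.Adj x v ∧ (outN G X x).card < 2 * k).card ≤ s + 1)
    (D : Finset V) (hDX : Disjoint D X) (hDR : Disjoint D R) :
    (X.filter fun x => (outN G X x \ D).card ≤ X.card).card ≤ D.card := by
  by_cases hkD : k ≤ D.card
  · refine (card_filter_le _ _).trans ?_
    omega
  push Not at hkD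
  set Q := X.filter fun x => (outN G X x \ D).card ≤ X.card with hQ
  -- a dead vertex is poor and has at least s+1 neighbours in D
  have hdead : ∀ x ∈ Q, (outN G X x).card < 2 * k ∧ s + 1 ≤ (outN G X x ∩ D).card := by
    intro x hx
    obtain ⟨hxX, hx2⟩ := mem_filter.mp hx
    have h1 := card_sdiff_add_card_inter (outN G X x) D
    have h2 := hN x hxX
    have h3 : (outN G X x ∩ D).card ≤ D.card := card_le_card inter_subset_right
    constructor <;> omega
  have hcount : (s + 1) * Q.card ≤ (s + 1) * D.card := by
    calc (s + 1) * Q.card = ∑ _x ∈ Q, (s + 1) := by rw [sum_const, smul_eq_mul, mul_comm]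
      _ ≤ ∑ x ∈ Q, (outN G X x ∩ D).card := sum_le_sum fun x hx => (hdead x hx).2
      _ = ∑ x ∈ Q, ∑ v ∈ D, if v ∈ outN G X x then 1 else 0 := by
          refine sum_congr rfl fun x _ => ?_
          rw [← sum_filter, sum_const, smul_eq_mul, mul_one]
          congr 1
          ext v
          simp [and_comm]
      _ = ∑ v ∈ D, ∑ x ∈ Q, if v ∈ outN G X x then 1 else 0 := sum_comm
      _ ≤ ∑ v ∈ D, (s + 1) := by
          refine sum_le_sum fun v hv => ?_
          have hvX : v ∉ X := fun h => (disjoint_left.mp hDX) hv h
          have hvR : v ∉ R := fun h => (disjoint_left.mp hDR) hv h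
          refine le_trans ?_ (hsp v hvX hvR)
          rw [← sum_filter, sum_const, smul_eq_mul, mul_one]
          refine card_le_card fun x hx => ?_
          obtain ⟨hxQ, hvx⟩ := mem_filter.mp hx
          refine mem_filter.mpr ⟨(mem_filter.mp hxQ).1, (mem_filter.mp hvx).2.1, (hdead x hxQ).1⟩
      _ = (s + 1) * D.card := by rw [sum_const, smul_eq_mul, mul_comm]
  exact Nat.le_of_mul_le_mul_left hcount (Nat.succ_pos s)

end Pool.Agent.DC
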