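import Pool.Agent.Helper46.DC.Spread
import Pool.Agent.Helper46.DC.Criterion

set_option autoImplicit false

namespace Pool.Agent.DC

open Finset

theorem kconn_anti {V : Type} [Fintype V] {G : SimpleGraph V} {c d : ℕ} (h : d ≤ c)
    (hG : KConn G c) : KConn G d :=
  ⟨by have := hG.1; omega, fun S hS => hG.2 S (by omega)⟩

/-- Separation: all neighbours of `A` outside `A` lie in `S`. -/
theorem spread_sep {V : Type} [Fintype V] [DecidableEq V] {G : SimpleGraph V} {c : ℕ}
    (hG : KConn G c) (A S : Finset V) (x y : V) (hx : x ∈ A) (hxS : x ∉ S) (hy : y ∉ A)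
    (hyS : y ∉ S) (h : ∀ u ∈ A, ∀ v, G.Adj u v → v ∈ A ∨ v ∈ S) : c ≤ S.card := by
  by_contra hcon
  push Not at hcon
  have h1 := hG.2 S hcon
  have h2 := h1.preconnected ⟨x, by simpa using hxS⟩ ⟨y, by simpa using hyS⟩
  obtain ⟨w⟩ := h2
  have key : ∀ (a b : {v | v ∉ S}) (w : (G.induce {v | v ∉ S}).Walk a b), a.1 ∈ A → b.1 ∈ A := by
    intro a b w
    induction w with
    | nil => exact id
    | @cons a v b hadj p ih =>
      intro ha
      apply ih
      have h3 : G.Adj a.1 v.1 := hadj
      rcases h _ ha _ h3 with h4 | h4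
      · exact h4
      · exact absurd h4 v.2
  exact hy (key _ _ w hx)

/-- few dead vertices: the counting part. `P` = poor vertices of `X` (at most `2k-2` outside
neighbours); the dead vertices form a subset `Q` of `P`. -/
theorem count_dead {V : Type} [Fintype V] [DecidableEq V] (G : SimpleGraph V)
    [DecidableRel G.Adj] (k s : ℕ) (X Q D : Finset V) (hQX : Q ⊆ X)
    (hpoor : ∀ x ∈ Q, (outN G X x).card ≤ 2 * k - 2)
    (hdead : ∀ x ∈ Q, s + 1 ≤ (outN G X x ∩ D).card)
    (hDX : Disjoint D X)
    (hsp : ∀ v, v ∉ X →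
      (X.filter fun x => G.Adj x v ∧ (outN G X x).card ≤ 2 * k - 2).card ≤ s + 1) :
    Q.card ≤ D.card := by
  have hcount : (s + 1) * Q.card ≤ (s + 1) * D.card := by
    calc (s + 1) * Q.card = ∑ _x ∈ Q, (s + 1) := by rw [sum_const, smul_eq_mul, mul_comm]
      _ ≤ ∑ x ∈ Q, (outN G X x ∩ D).card := sum_le_sum fun x hx => hdead x hx
      _ = ∑ x ∈ Q, ∑ v ∈ D, if v ∈ outN G X x then 1 else 0 := by
          refine sum_congr rfl fun x _ => ?_
          rw [← sum_filter, sum_const, smul_eq_mul, mul_one]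
          congr 1
          ext v
          simp [and_comm]
      _ = ∑ v ∈ D, ∑ x ∈ Q, if v ∈ outN G X x then 1 else 0 := sum_comm
      _ ≤ ∑ v ∈ D, (s + 1) := by
          refine sum_le_sum fun v hv => ?_
          have hvX : v ∉ X := fun h => (disjoint_left.mp hDX) hv h
          refine le_trans ?_ (hsp v hvX)
          rw [← sum_filter, sum_const, smul_eq_mul, mul_one]
          refine card_le_card fun x hx => ?_
          obtain ⟨hxQ, hvx⟩ := mem_filter.mp hx
          refine mem_filter.mpr ⟨hQX hxQ, (mem_filter.mp hvx).2.1, hpoor x hxQ⟩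
      _ = (s + 1) * D.card := by rw [sum_const, smul_eq_mul, mul_comm]
  exact Nat.le_of_mul_le_mul_left hcount (Nat.succ_pos s)

/-- The main case distinction: a good root set suffices. -/
theorem spread_core {V : Type} [Fintype V] [DecidableEq V] (G : SimpleGraph V)
    [DecidableRel G.Adj] (k s : ℕ) (hk : 1 ≤ k) (hG : KConn G (2 * k + s)) (X R : Finset V)
    (hXk : X.card = k) (hRX : R ⊆ Xᶜ) (hRk : R.card = k)
    (hsp : ∀ v, v ∉ X →
      (X.filter fun x => G.Adj x v ∧ (outN G X x).card ≤ 2 * k - 2).card ≤ s + 1)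
    (hR : ∀ D : Finset V, D.card = k - 1 → Disjoint D X → Disjoint D R →
      (∃ x ∈ X, 2 * k - 1 ≤ (outN G X x).card) → ∃ x ∈ X, k < (outN G X x \ D).card) :
    DisjCycles G X := by
  have hV : 2 * k + s < Fintype.card V := hG.1
  have hXR : Disjoint X R := by
    rw [disjoint_right]
    intro v hv
    have := hRX hv
    rwa [mem_compl] at this
  refine criterion G X R hXR (by rw [hRk, hXk]) (card_pos.1 (by omega)) ?_ ?_ ?_
  · by_contra hcon
    push Not at hcon
    have h1 : (univ : Finset V) ⊆ X ∪ R := by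
      intro v _
      rw [mem_union]
      by_cases hv : v ∈ X
      · exact Or.inl hv
      · exact Or.inr (hcon v hv)
    have h2 := card_le_card h1
    have h3 := card_union_le X R
    rw [card_univ] at h2
    omega
  · intro Z hZX hZ
    have h1 : (X ∪ Z).card < 2 * k + s := by
      have := card_union_le X Z
      omega
    have h2 : {v | v ∉ X ∪ Z} = {v | v ∉ X ∧ v ∉ Z} := by
      ext v
      simp [mem_union]
    rw [← h2]
    exact hG.2 (X ∪ Z) h1
  · intro D hDX hDR
    change (X.filter fun x => (outN G X x \ D).card ≤ X.card).card ≤ D.card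
    rw [hXk]
    have hN : ∀ x ∈ X, k + s + 1 ≤ (outN G X x).card := by
      intro x hx
      have := outN_card G hG X x hx
      omega
    by_cases hkD : k ≤ D.card
    · refine (card_filter_le _ _).trans ?_
      omega
    push Not at hkD
    set Q := X.filter fun x => (outN G X x \ D).card ≤ k with hQ
    have hsd : ∀ x, (outN G X x \ D).card + (outN G X x ∩ D).card = (outN G X x).card :=
      fun x => card_sdiff_add_card_inter (outN G X x) D
    have hiD : ∀ x, (outN G X x ∩ D).card ≤ D.card := fun x => card_le_card inter_subset_right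
    by_cases hQP : ∀ x ∈ Q, (outN G X x).card ≤ 2 * k - 2
    · refine count_dead G k s X Q D (filter_subset _ _) hQP ?_ hDX hsp
      intro x hx
      obtain ⟨hxX, hx2⟩ := mem_filter.mp hx
      have h1 := hsd x
      have h2 := hN x hxX
      omega
    · push Not at hQP
      obtain ⟨x₀, hx₀, hx₀'⟩ := hQP
      obtain ⟨hx₀X, hx₀2⟩ := mem_filter.mp hx₀
      have h1 := hsd x₀
      have h2 := hiD x₀
      have hDc : D.card = k - 1 := by omega
      obtain ⟨y, hy, hy2⟩ := hR D hDc hDX hDR ⟨x₀, hx₀X, by omega⟩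
      have h3 : Q ⊆ X.erase y := by
        intro z hz
        obtain ⟨hzX, hz2⟩ := mem_filter.mp hz
        rw [mem_erase]
        refine ⟨?_, hzX⟩
        rintro rfl
        omega
      have h4 := card_le_card h3
      rw [card_erase_of_mem hy] at h4
      omega

/-- **Spread theorem.** -/
theorem spread_main {V : Type} [Fintype V] [DecidableEq V] (G : SimpleGraph V)
    [DecidableRel G.Adj] (k s : ℕ) (hk : 1 ≤ k) (hV3 : 3 * k ≤ Fintype.card V)
    (hG : KConn G (2 * k + s)) (X : Finset V) (hXk : X.card = k)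
    (hsp : ∀ v, v ∉ X →
      (X.filter fun x => G.Adj x v ∧ (outN G X x).card ≤ 2 * k - 2).card ≤ s + 1) :
    DisjCycles G X := by
  have hV : 2 * k + s < Fintype.card V := hG.1
  have hXc : (Xᶜ).card = Fintype.card V - k := by rw [card_compl, hXk]
  have hN : ∀ x ∈ X, k + s + 1 ≤ (outN G X x).card := by
    intro x hx
    have := outN_card G hG X x hx
    omega
  have hsub : ∀ x, outN G X x ⊆ Xᶜ := by
    intro x v hv
    rw [mem_compl]
    exact (mem_filter.mp hv).2.2
  -- easy cases: no vertex with exactly `2k-1`, or a rich vertex: any `R`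
  by_cases hex : ∃ x₀ ∈ X, 2 * k - 1 ≤ (outN G X x₀).card
  swap
  · obtain ⟨R, hRX, hRk⟩ := exists_subset_card_eq (s := Xᶜ) (n := k) (by omega)
    exact spread_core G k s hk hG X R hXk hRX hRk hsp fun D _ _ _ h => absurd h hex
  by_cases hrich : ∃ x₀ ∈ X, 2 * k ≤ (outN G X x₀).card
  · obtain ⟨x₀, hx₀, hx₀2⟩ := hrich
    obtain ⟨R, hRX, hRk⟩ := exists_subset_card_eq (s := Xᶜ) (n := k) (by omega)
    refine spread_core G k s hk hG X R hXk hRX hRk hsp fun D hD _ _ _ => ⟨x₀, hx₀, ?_⟩
    have := le_card_sdiff D (outN G X x₀)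
    omega
  push Not at hrich
  obtain ⟨x₀, hx₀, hx₀2⟩ := hex
  have hx₀3 := hrich x₀ hx₀
  have hcx : (outN G X x₀).card = 2 * k - 1 := by omega
  -- some `y` has a neighbour outside `outN x₀`
  obtain ⟨y, hy, hyn⟩ : ∃ y ∈ X, ¬ outN G X y ⊆ outN G X x₀ := by
    by_contra hcon
    push Not at hcon
    obtain ⟨z, hz⟩ : ∃ z, z ∉ X ∪ outN G X x₀ := by
      by_contra hc
      push Not at hc
      have h5 : (univ : Finset V) ⊆ X ∪ outN G X x₀ := fun v _ => hc v
      have h6 := card_le_card h5
      have h7 := card_union_le X (outN G X x₀)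
      rw [card_univ] at h6
      omega
    rw [mem_union, not_or] at hz
    have h8 := spread_sep hG X (outN G X x₀) x₀ z hx₀
      (by intro h; exact (mem_filter.mp h).2.2 hx₀) hz.1 hz.2
      (by
        intro u hu v huv
        by_cases hv : v ∈ X
        · exact Or.inl hv
        · exact Or.inr (hcon u hu (mem_filter.mpr ⟨mem_univ _, huv, hv⟩)))
    omega
  obtain ⟨z, hz, hzn⟩ := not_subset.mp hyn
  -- choose `R ⊆ outN x₀` of size `k`, comparable with `outN y ∩ outN x₀`
  set I := outN G X y ∩ outN G X x₀ with hI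
  obtain ⟨R, hR1, hR2, hR3⟩ : ∃ R : Finset V, R ⊆ outN G X x₀ ∧ R.card = k ∧ (I ⊆ R ∨ R ⊆ I) := by
    rcases le_total k I.card with h | h
    · obtain ⟨R, h1, h2⟩ := exists_subset_card_eq h
      exact ⟨R, h1.trans inter_subset_right, h2, Or.inr h1⟩
    · obtain ⟨R, h1, h2, h3⟩ := exists_subsuperset_card_eq (s := I) (t := outN G X x₀) (n := k)
        inter_subset_right h (by omega)
      exact ⟨R, h2, h3, Or.inl h1⟩
  refine spread_core G k s hk hG X R hXk (hR1.trans (hsub x₀)) hR2 hsp fun D hD hDX hDR _ => ?_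
  by_contra hcon
  push Not at hcon
  -- `D` is `outN x₀ \ R`
  have h1 := hcon x₀ hx₀
  have h2 := card_sdiff_add_card_inter (outN G X x₀) D
  have h3 : D ⊆ outN G X x₀ := by
    have h4 : D.card ≤ (outN G X x₀ ∩ D).card := by omega
    have h5 := eq_of_subset_of_card_le (inter_subset_right (s₁ := outN G X x₀) (s₂ := D)) h4
    rw [← h5]
    exact inter_subset_left
  have h4 : D ⊆ outN G X x₀ \ R := by
    intro v hv
    rw [mem_sdiff]
    exact ⟨h3 hv, disjoint_left.mp hDR hv⟩
  have h5 : D = outN G X x₀ \ R := by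
    refine eq_of_subset_of_card_le h4 ?_
    rw [card_sdiff_of_subset hR1]
    omega
  have h6 := hcon y hy
  rcases hR3 with h7 | h7
  · -- `outN y` is disjoint from `D`
    have h8 : outN G X y \ D = outN G X y := by
      rw [Finset.sdiff_eq_self_iff_disjoint, disjoint_left]
      intro v hv hvD
      rw [h5, mem_sdiff] at hvD
      exact hvD.2 (h7 (mem_inter.mpr ⟨hv, hvD.1⟩))
    have h9 := hN y hy
    rw [h8] at h6
    omega
  · have h8 : insert z R ⊆ outN G X y \ D := by
      intro v hv
      rw [mem_sdiff]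
      rcases mem_insert.mp hv with rfl | hv
      · exact ⟨hz, fun h => hzn (h3 h)⟩
      · exact ⟨(mem_inter.mp (h7 hv)).1, fun h => disjoint_left.mp hDR h hv⟩
    have h9 := card_le_card h8
    have h10 : z ∉ R := fun h => hzn (hR1 h)
    rw [card_insert_of_notMem h10] at h9
    omega

end Pool.Agent.DC
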